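import Mathlib

/-! SLOPES, density (helper64): the Erdos-Stone theorem for the number of edges, from the minimum degree version in
Mathlib. -/

set_option autoImplicit false

namespace Pool.Agent.SL

open Finset

open Classical in
/-- number of ordered pairs in `U` -/
noncomputable def prE {k : ℕ} (B : Fin k → Fin k → Prop) (U : Finset (Fin k)) : ℝ :=
  ∑ i ∈ U, ∑ j ∈ U, if i ≠ j ∧ B i j then 1 else 0

open Classical in
/-- degree in `U` -/
noncomputable def degE {k : ℕ} (B : Fin k → Fin k → Prop) (U : Finset (Fin k)) (v : Fin k) : ℝ :=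
  ∑ j ∈ U, if v ≠ j ∧ B v j then 1 else 0

theorem prE_erase {k : ℕ} (B : Fin k → Fin k → Prop) (hB : ∀ i j, B i j → B j i) (U : Finset (Fin k)) (v : Fin k)
    (hv : v ∈ U) : prE B (U.erase v) = prE B U - 2 * degE B U v := by
  classical
  have hd : degE B U v = ∑ j ∈ U.erase v, if v ≠ j ∧ B v j then 1 else 0 := by
    unfold degE
    rw [← Finset.add_sum_erase U _ hv]
    simp
  have h1 : prE B U = (∑ j ∈ U, if v ≠ j ∧ B v j then 1 else 0) +
      ∑ i ∈ U.erase v, ∑ j ∈ U, if i ≠ j ∧ B i j then (1 : ℝ) else 0 := by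
    unfold prE
    rw [← Finset.add_sum_erase U _ hv]
  have h2 : ∑ i ∈ U.erase v, ∑ j ∈ U, (if i ≠ j ∧ B i j then (1 : ℝ) else 0) =
      (∑ i ∈ U.erase v, if v ≠ i ∧ B v i then (1 : ℝ) else 0) + prE B (U.erase v) := by
    unfold prE
    rw [← Finset.sum_add_distrib]
    refine Finset.sum_congr rfl fun i _ => ?_
    rw [← Finset.add_sum_erase U _ hv]
    congr 1
    refine if_congr ?_ rfl rfl
    exact ⟨fun h => ⟨h.1.symm, hB _ _ h.2⟩, fun h => ⟨h.1.symm, hB _ _ h.2⟩⟩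
  rw [h1, h2, ← hd]
  unfold degE
  ring

theorem prE_le {k : ℕ} (B : Fin k → Fin k → Prop) (U : Finset (Fin k)) : prE B U ≤ (U.card : ℝ) ^ 2 := by
  classical
  unfold prE
  calc ∑ i ∈ U, ∑ j ∈ U, (if i ≠ j ∧ B i j then (1 : ℝ) else 0) ≤ ∑ _i ∈ U, ∑ _j ∈ U, (1 : ℝ) :=
        Finset.sum_le_sum fun i _ => Finset.sum_le_sum fun j _ => by split_ifs <;> norm_num
    _ = (U.card : ℝ) ^ 2 := by simp; ring

/-- **Erdos-Stone** -/
theorem stone (r t : ℕ) (ε : ℝ) (hε : 0 < ε) : ∃ k0 : ℕ, ∀ k ≥ k0, ∀ B : Fin k → Fin k → Prop,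
    (∀ i j, B i j → B j i) → (1 - 1 / (r : ℝ) + ε) * (k : ℝ) ^ 2 ≤ prE B univ →
    ∃ f : Fin (r + 1) × Fin t → Fin k, Function.Injective f ∧ ∀ v w, v.1 ≠ w.1 → B (f v) (f w) := by
  classical
  have h0 := SimpleGraph.eventually_completeEquipartiteGraph_isContained_of_minDegree
    (show 0 < ε / 4 by linarith) r t
  obtain ⟨n0, hn0⟩ := Filter.eventually_atTop.1 h0
  set c : ℝ := 1 - 1 / (r : ℝ) + ε / 2 with hc
  obtain ⟨n1, hn1⟩ := exists_nat_gt (2 * |c| / ε)
  set N : ℕ := n0 + n1 + 1 with hN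
  obtain ⟨k1, hk1⟩ := exists_nat_gt ((N : ℝ) ^ 2 * 2 / ε + 1)
  refine ⟨k1, ?_⟩
  intro k hk B hB hE
  obtain ⟨U, _, hU⟩ := Finset.exists_max_image (univ : Finset (Fin k)).powerset
    (fun U => prE B U - c * (U.card : ℝ) ^ 2) ⟨∅, Finset.mem_powerset.2 (Finset.empty_subset _)⟩
  replace hU : ∀ V : Finset (Fin k), prE B V - c * (V.card : ℝ) ^ 2 ≤ prE B U - c * (U.card : ℝ) ^ 2 :=
    fun V => hU V (Finset.mem_powerset.2 (Finset.subset_univ V))
  have hkR : (N : ℝ) ^ 2 * 2 / ε + 1 < k := hk1.trans_le (by exact_mod_cast hk)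
  have hk1' : (1 : ℝ) ≤ k := by
    have : 0 ≤ (N : ℝ) ^ 2 * 2 / ε := by positivity
    linarith
  -- `U` is large
  have hbig : ε / 2 * (k : ℝ) ^ 2 ≤ prE B U - c * (U.card : ℝ) ^ 2 := by
    have h1 := hU univ
    rw [Finset.card_univ, Fintype.card_fin] at h1
    have h2 : (1 - 1 / (r : ℝ) + ε) * (k : ℝ) ^ 2 - c * (k : ℝ) ^ 2 = ε / 2 * (k : ℝ) ^ 2 := by
      rw [hc]; ring
    linarith
  have hdeg : ∀ v ∈ U, c * ((U.card : ℝ) - 1 / 2) ≤ degE B U v := by
    intro v hv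
    have h1 := hU (U.erase v)
    rw [prE_erase B hB U v hv, Finset.card_erase_of_mem hv] at h1
    have h2 : ((U.card - 1 : ℕ) : ℝ) = (U.card : ℝ) - 1 := by
      have : 1 ≤ U.card := Finset.card_pos.2 ⟨v, hv⟩
      push_cast [Nat.cast_sub this]
      ring
    rw [h2] at h1
    nlinarith
  have hc0 : r ≠ 0 → 0 ≤ c := by
    intro hr
    have h1 : 1 / (r : ℝ) ≤ 1 := by
      have : (1 : ℝ) ≤ r := by exact_mod_cast Nat.one_le_iff_ne_zero.2 hr
      rw [div_le_one (by linarith)]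
      exact this
    rw [hc]
    linarith
  have hc0' : 0 ≤ c := by
    by_cases hr : r = 0
    · rw [hc, hr]
      norm_num
      linarith
    · exact hc0 hr
  have hUN : N ≤ U.card := by
    by_contra hlt
    push Not at hlt
    have h1 : (U.card : ℝ) ≤ N := by exact_mod_cast hlt.le
    have h2 := prE_le B U
    have h3 : (U.card : ℝ) ^ 2 ≤ (N : ℝ) ^ 2 := pow_le_pow_left₀ (Nat.cast_nonneg _) h1 2
    have h4 : 0 ≤ c * (U.card : ℝ) ^ 2 := mul_nonneg hc0' (by positivity)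
    have h5 : ε / 2 * (k : ℝ) ^ 2 ≤ (N : ℝ) ^ 2 := by linarith
    have h6 : (N : ℝ) ^ 2 * 2 / ε < k := by linarith
    rw [div_lt_iff₀ hε] at h6
    nlinarith
  set n : ℕ := U.card with hn
  have hnN : (N : ℝ) ≤ n := by exact_mod_cast hUN
  have hn1' : 2 * |c| / ε < n := by
    refine hn1.trans_le (le_trans ?_ hnN)
    rw [hN]
    push_cast
    have : (0 : ℝ) ≤ n0 := Nat.cast_nonneg _
    linarith
  -- the graph
  set e : Fin n ≃ U := (Finset.equivFin U).symm with he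
  let G : SimpleGraph (Fin n) :=
    { Adj := fun a b => (e a : Fin k) ≠ (e b : Fin k) ∧ B (e a) (e b)
      symm := ⟨fun a b h => ⟨h.1.symm, hB _ _ h.2⟩⟩
      loopless := ⟨fun a h => h.1 rfl⟩ }
  have hdg : ∀ a : Fin n, ((G.degree a : ℕ) : ℝ) = degE B U (e a) := by
    intro a
    unfold degE
    rw [← SimpleGraph.card_neighborFinset_eq_degree, SimpleGraph.neighborFinset_eq_filter, Finset.card_filter]
    push_cast
    rw [← Finset.sum_coe_sort U, ← e.sum_comp]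
  have hnpos : 0 < n := by omega
  have hmin : ((G.minDegree : ℕ) : ℝ) ≥ (1 - 1 / (r : ℝ) + ε / 4) * n := by
    have : Nonempty (Fin n) := ⟨⟨0, hnpos⟩⟩
    obtain ⟨v, hv⟩ := G.exists_minimal_degree_vertex
    rw [hv, hdg v]
    have h1 := hdeg (e v) (e v).2
    have h2 : (1 - 1 / (r : ℝ) + ε / 4) * n ≤ c * ((n : ℝ) - 1 / 2) := by
      have h3 : 2 * |c| < n * ε := (div_lt_iff₀ hε).1 hn1'
      have h4 := le_abs_self c
      have h5 : c * ((n : ℝ) - 1 / 2) - (1 - 1 / (r : ℝ) + ε / 4) * n = ε / 4 * n - c / 2 := by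
        rw [hc]; ring
      nlinarith
    exact h2.trans h1
  obtain ⟨φ⟩ := hn0 n (by omega) (G := G) hmin
  refine ⟨fun v => (e (φ v) : Fin k), ?_, ?_⟩
  · intro v w hvw
    exact φ.injective (e.injective (Subtype.ext hvw))
  · intro v w hvw
    have h1 : G.Adj (φ v) (φ w) := by
      apply φ.toHom.map_adj
      exact hvw
    exact h1.2

end Pool.Agent.SL
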