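import Pool.Agent.SL4.Dhl4
import Pool.Agent.SLD.Stone

/-! SLOPES, density (helper64): A THIRD of the pairs of linear forms.  From four groups and the Erdos-Stone theorem: for `k`
large and every admissible system of `k` linear forms fewer than `(1/3 - ε) k²` ordered pairs cannot contain all pairs
that are simultaneously prime infinitely often. -/

set_option autoImplicit false

namespace Pool.Agent.SL

open Finset

/-- from `r + 1` groups: at least the proportion `1/r` of the pairs -/
theorem third_of {r k' : ℕ} (hr : 1 ≤ r) (hk' : 1 ≤ k') (hD : DHLG (r + 1) ((r + 1) * k')) (ε : ℝ) (hε : 0 < ε) :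
    ∃ k0 : ℕ, ∀ k ≥ k0, ∀ s h : Fin k → ℕ, (∀ i, 0 < s i) → (∀ i j, i ≠ j → s i * h j ≠ s j * h i) →
      (∀ p : ℕ, p.Prime → ∃ n : ℕ, ∀ i, ¬ p ∣ s i * n + h i) → ∀ G : Finset (Fin k × Fin k),
        (G.card : ℝ) ≤ (1 / (r : ℝ) - ε) * (k : ℝ) ^ 2 →
        ∀ x : ℕ, ∃ n ≥ x, ∃ i j, i ≠ j ∧ (i, j) ∉ G ∧ (s i * n + h i).Prime ∧ (s j * n + h j).Prime := by
  classical
  obtain ⟨k0, hk0⟩ := stone r k' (ε / 4) (by linarith)
  obtain ⟨k1, hk1⟩ := exists_nat_gt (4 / ε)
  refine ⟨max k0 (k1 + 1), ?_⟩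
  intro k hk s h hs hdet hadm G hG
  by_contra hcon
  push Not at hcon
  obtain ⟨x, hx⟩ := hcon
  have hkk0 : k0 ≤ k := (le_max_left _ _).trans hk
  have hkk1 : (4 / ε : ℝ) < k := by
    refine hk1.trans ?_
    have : k1 + 1 ≤ k := (le_max_right _ _).trans hk
    exact_mod_cast (by omega : k1 < k)
  have hkpos : (0 : ℝ) < k := lt_trans (by positivity) hkk1
  -- the graph of the pairs that are not simultaneously prime
  set B : Fin k → Fin k → Prop := fun i j => ∀ n ≥ x, ¬ ((s i * n + h i).Prime ∧ (s j * n + h j).Prime) with hB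
  have hBs : ∀ i j, B i j → B j i := fun i j hij n hn hp => hij n hn ⟨hp.2, hp.1⟩
  have hBG : ∀ i j, i ≠ j → (i, j) ∉ G → B i j := by
    intro i j hij hG n hn hp
    exact hx n hn i j hij hG hp.1 hp.2
  have hE : (1 - 1 / (r : ℝ) + ε / 4) * (k : ℝ) ^ 2 ≤ prE B univ := by
    have h1 : (k : ℝ) ^ 2 - k - G.card ≤ prE B univ := by
      have h2 : ((univ : Finset (Fin k × Fin k)).filter fun x => x.1 ≠ x.2).card = k * k - k := by
        have := Finset.offDiag_card (univ : Finset (Fin k))
        rw [Finset.card_univ, Fintype.card_fin] at this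
        rw [← this]
        congr 1
        ext x
        simp [Finset.mem_offDiag]
      have h3 : prE B univ = (((univ : Finset (Fin k × Fin k)).filter fun x => x.1 ≠ x.2 ∧ B x.1 x.2).card : ℝ) := by
        unfold prE
        rw [Finset.card_filter]
        push_cast
        rw [Fintype.sum_prod_type]
      have h4 : ((univ : Finset (Fin k × Fin k)).filter fun x => x.1 ≠ x.2).card ≤
          ((univ : Finset (Fin k × Fin k)).filter fun x => x.1 ≠ x.2 ∧ B x.1 x.2).card + G.card := by
        refine le_trans (Finset.card_le_card ?_) (Finset.card_union_le _ _)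
        intro y hy
        have hy' := (Finset.mem_filter.1 hy).2
        rw [Finset.mem_union]
        by_cases hyG : y ∈ G
        · exact Or.inr hyG
        · exact Or.inl (Finset.mem_filter.2 ⟨Finset.mem_univ _, hy', hBG _ _ hy' hyG⟩)
      rw [h2] at h4
      have h5 : ((k * k - k : ℕ) : ℝ) = (k : ℝ) ^ 2 - k := by
        have : k ≤ k * k := Nat.le_mul_self k
        rw [Nat.cast_sub this]
        push_cast
        ring
      have h6 : ((k * k - k : ℕ) : ℝ) ≤
          (((univ : Finset (Fin k × Fin k)).filter fun x => x.1 ≠ x.2 ∧ B x.1 x.2).card : ℝ) + G.card := by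
        exact_mod_cast h4
      rw [h5] at h6
      rw [h3]
      linarith
    have h2 : (k : ℝ) ≤ ε / 4 * (k : ℝ) ^ 2 := by
      rw [div_lt_iff₀ hε] at hkk1
      nlinarith
    nlinarith
  obtain ⟨f, hf, hfB⟩ := hk0 k hkk0 B hBs hE
  -- the groups
  set e : Fin ((r + 1) * k') ≃ Fin (r + 1) × Fin k' := finProdFinEquiv.symm with he
  have h1 := hD (fun i => s (f (e i))) (fun i => h (f (e i))) (fun i => (e i).1) ?_ (fun i => hs _) ?_ ?_ x
  · obtain ⟨n, hn, i, j, hij, hi, hj⟩ := h1
    exact hfB (e i) (e j) hij n hn ⟨hi, hj⟩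
  · intro g
    have h2 : (univ.filter fun i : Fin ((r + 1) * k') => (e i).1 = g).card = k' := by
      rw [← Finset.card_map e.toEmbedding]
      have h3 : (univ.filter fun i : Fin ((r + 1) * k') => (e i).1 = g).map e.toEmbedding =
          ({g} : Finset (Fin (r + 1))) ×ˢ (univ : Finset (Fin k')) := by
        ext y
        simp only [Finset.mem_map, Finset.mem_filter, Finset.mem_univ, true_and, Equiv.coe_toEmbedding,
          Finset.mem_product, Finset.mem_singleton, and_true]
        constructor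
        · rintro ⟨a, ha, rfl⟩
          exact ha
        · intro hy
          exact ⟨e.symm y, by simpa using hy, by simp⟩
      rw [h3, Finset.card_product, Finset.card_singleton, Finset.card_univ, Fintype.card_fin, one_mul]
    rw [h2]
  · intro i j hij
    apply hdet
    intro h2
    exact hij (e.injective (hf h2))
  · intro p hp
    obtain ⟨n, hn⟩ := hadm p hp
    exact ⟨n, fun i => hn _⟩

/-- **a third of the pairs**, unconditionally -/
theorem third (ε : ℝ) (hε : 0 < ε) :
    ∃ k0 : ℕ, ∀ k ≥ k0, ∀ s h : Fin k → ℕ, (∀ i, 0 < s i) → (∀ i j, i ≠ j → s i * h j ≠ s j * h i) →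
      (∀ p : ℕ, p.Prime → ∃ n : ℕ, ∀ i, ¬ p ∣ s i * n + h i) → ∀ G : Finset (Fin k × Fin k),
        (G.card : ℝ) ≤ (1 / 3 - ε) * (k : ℝ) ^ 2 →
        ∀ x : ℕ, ∃ n ≥ x, ∃ i j, i ≠ j ∧ (i, j) ∉ G ∧ (s i * n + h i).Prime ∧ (s j * n + h j).Prime := by
  obtain ⟨k, hk, ⟨k', hkk⟩, hD⟩ := dhl4
  rw [hkk] at hD
  have hk' : 1 ≤ k' := by
    rcases Nat.eq_zero_or_pos k' with h0 | h0
    · rw [h0, Nat.mul_zero] at hkk; omega
    · exact h0
  have h1 := third_of (r := 3) (by norm_num) hk' hD ε hε
  simpa using h1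

end Pool.Agent.SL
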