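import Pool.Agent.SLD.Step
import Pool.Agent.SLD.Third

/-! SLOPES, density (helper64): at least a third of all pairs `(a, d)`, multiplicative density in `d`. -/

set_option autoImplicit false

namespace Pool.Agent.SL

open Finset Filter Topology

/-- infinitely often both prime -/
theorem pair_good (s1 h1 s2 h2 d : ℕ) (hd : s2 = d * s1) (hs1 : 0 < s1) (hd0 : 0 < d)
    (hinf : ∀ x : ℕ, ∃ n ≥ x, (s1 * n + h1).Prime ∧ (s2 * n + h2).Prime) : GoodP ((h2 : ℤ) - d * h1) d := by
  refine GZ.good hd0 ?_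
  unfold GZ
  refine Set.infinite_of_forall_exists_gt fun N => ?_
  obtain ⟨n, hn, hp1, hp2⟩ := hinf (N + 1)
  refine ⟨s1 * n + h1, ⟨hp1, s2 * n + h2, hp2, ?_⟩, ?_⟩
  · rw [hd]
    push_cast
    ring
  · have : n ≤ s1 * n := Nat.le_mul_of_pos_left n hs1
    omega

open Classical in
/-- number of good pairs `i < i' < j` -/
noncomputable def cntG (j : ℕ) (s : ℕ → ℕ) (h : ℕ → ℤ) : ℝ :=
  ∑ i' ∈ range j, (((range i').filter fun i =>
    GoodP (h i' - (s i' / s i : ℕ) * h i) (s i' / s i : ℕ)).card : ℝ)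

/-- systems of forms with few good pairs -/
theorem dens_sys (β ε : ℝ) (hε : 0 < ε) (L Q : ℕ) (hQ : 0 < Q) (S : Set ℕ) (Φ : ℕ → Finset ℕ) (hpos : ∀ m ∈ S, 0 < m)
    (hmul : ∀ a ∈ S, ∀ b ∈ S, a * b ∈ S) (hQS : ∀ m ∈ S, Nat.Coprime m Q)
    (hL : ∃ m ∈ S, 1 < m ∧ ∀ p ≤ L, p.Prime → ¬ p ∣ Q → p ∣ m)
    (hΦ : ∀ n, (Φ n).Nonempty ∧ ∀ d ∈ Φ n, d ∈ S)
    (hF : ∀ m ∈ S, Tendsto (fun n => (((Φ n).filter fun d => m * d ∉ Φ n).card : ℝ) / (Φ n).card) atTop (𝓝 0))
    (hbad : ∃ᶠ n in atTop, ∀ H : ℕ, ∃ (y : ℤ) (x : ℕ), H ≤ x ∧ ∑ d ∈ Φ n, propG Q d y x < β * (Φ n).card)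
    (j : ℕ) (hj : 1 ≤ j) :
    ∃ (s : ℕ → ℕ) (h : ℕ → ℤ), s 0 = 1 ∧ (∀ i, 1 ≤ i → i < j → s i ∈ S) ∧
      (∀ i i', i < i' → i' < j → ∃ d, s i' = d * s i ∧ 1 < d ∧ ∀ p ≤ L, p.Prime → ¬ p ∣ Q → p ∣ d) ∧
      (∀ i < j, Int.gcd (h i) (s i) = 1) ∧ (∀ i < j, (Q : ℤ) ∣ h i) ∧ cntG j s h ≤ (β + ε / 2) * (j * (j - 1) / 2) := by
  classical
  obtain ⟨μ, hμS, hμ1, hμ⟩ := hL
  induction j, hj using Nat.le_induction with
  | base =>
    refine ⟨fun _ => 1, fun _ => 0, rfl, fun i h1 h2 => by omega, fun i i' h1 h2 => by omega,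
      fun i _ => by simp, fun i _ => dvd_zero _, ?_⟩
    unfold cntG
    simp
  | succ j hj ih =>
    obtain ⟨s, h, hs0, hsS, hdiv, hcop, hQh, hcnt⟩ := ih
    set M : ℕ := μ * ∏ i ∈ Ico 1 j, (s i) ^ 2 with hM
    have hsq : ∀ i ∈ Ico 1 j, (s i) ^ 2 ∈ S := by
      intro i hi
      rw [Finset.mem_Ico] at hi
      rw [sq]
      exact hmul _ (hsS i hi.1 hi.2) _ (hsS i hi.1 hi.2)
    have hMS : M ∈ S := mul_prod_mem hmul _ _ hsq μ hμS
    set m : ℕ → ℕ := fun i => if i = 0 then M else μ * s i * ∏ l ∈ (Ico 1 j).erase i, (s l) ^ 2 with hm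
    have hmi : ∀ i < j, m i ∈ S ∧ M = m i * s i ∧ s i ∣ m i := by
      intro i hi
      rw [hm]
      by_cases h0 : i = 0
      · subst h0
        simp only [if_true, hs0, mul_one, one_dvd, and_true]
        exact hMS
      · simp only [h0, if_false]
        have hi1 : i ∈ Ico 1 j := Finset.mem_Ico.2 ⟨by omega, hi⟩
        refine ⟨?_, ?_, ?_⟩
        · exact mul_prod_mem hmul _ _ (fun l hl => hsq l (Finset.mem_of_mem_erase hl)) _
            (hmul _ hμS _ (hsS i (by omega) hi))
        · rw [hM, ← Finset.mul_prod_erase (Ico 1 j) _ hi1]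
          ring
        · exact (dvd_mul_left _ _).mul_right _
    have hμm : ∀ i, μ ∣ m i := by
      intro i
      rw [hm]
      by_cases h0 : i = 0
      · simp only [h0, if_true]
        exact dvd_mul_right _ _
      · simp only [h0, if_false]
        rw [mul_assoc]
        exact dvd_mul_right _ _
    obtain ⟨u, huS, g, hQg, hg, hcount⟩ := dens_step β ε hε Q hQ S Φ hpos hQS hΦ hF hbad j s h M (hpos M hMS) m hmi
      hMS hQh
    have hspos : ∀ i < j, 0 < s i := by
      intro i hi
      rcases Nat.eq_zero_or_pos i with h0 | h0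
      · rw [h0, hs0]
        norm_num
      · exact hpos _ (hsS i h0 hi)
    refine ⟨Function.update s j (M * u), Function.update h j g, ?_, ?_, ?_, ?_, ?_, ?_⟩
    · rw [Function.update_of_ne (by omega)]
      exact hs0
    · intro i h1 h2
      by_cases hij : i = j
      · subst hij
        rw [Function.update_self]
        exact hmul _ hMS _ huS
      · rw [Function.update_of_ne hij]
        exact hsS i h1 (by omega)
    · intro i i' h1 h2
      have hne : i ≠ j := by omega
      rw [Function.update_of_ne hne]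
      by_cases hij : i' = j
      · subst hij
        rw [Function.update_self]
        obtain ⟨_, h3, _⟩ := hmi i h1
        refine ⟨m i * u, ?_, ?_, ?_⟩
        · rw [h3]; ring
        · have h4 := hpos u huS
          have h5 : μ ∣ m i * u := (hμm i).mul_right u
          have h6 : 0 < m i * u := Nat.mul_pos (hpos _ (hmi i h1).1) h4
          exact lt_of_lt_of_le hμ1 (Nat.le_of_dvd h6 h5)
        · intro p hp hpp hpQ
          exact ((hμ p hp hpp hpQ).trans (hμm i)).mul_right u
      · rw [Function.update_of_ne hij]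
        exact hdiv i i' h1 (by omega)
    · intro i hi
      by_cases hij : i = j
      · subst hij
        rw [Function.update_self, Function.update_self]
        exact hg
      · rw [Function.update_of_ne hij, Function.update_of_ne hij]
        exact hcop i (by omega)
    · intro i hi
      by_cases hij : i = j
      · subst hij
        rw [Function.update_self]
        exact hQg
      · rw [Function.update_of_ne hij]
        exact hQh i (by omega)
    · have e1 : cntG (j + 1) (Function.update s j (M * u)) (Function.update h j g) =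
          cntG j s h + (((range j).filter fun i => GoodP (g - (m i * u : ℕ) * h i) (m i * u : ℕ)).card : ℝ) := by
        unfold cntG
        rw [Finset.sum_range_succ]
        congr 1
        · refine Finset.sum_congr rfl fun i' hi' => ?_
          rw [Finset.mem_range] at hi'
          have h1 : (range i').filter (fun i => GoodP (Function.update h j g i' -
              (Function.update s j (M * u) i' / Function.update s j (M * u) i : ℕ) * Function.update h j g i)
              (Function.update s j (M * u) i' / Function.update s j (M * u) i : ℕ)) =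
              (range i').filter (fun i => GoodP (h i' - (s i' / s i : ℕ) * h i) (s i' / s i : ℕ)) := by
            refine Finset.filter_congr fun i hi => ?_
            rw [Finset.mem_range] at hi
            rw [Function.update_of_ne (by omega), Function.update_of_ne (by omega), Function.update_of_ne (by omega),
              Function.update_of_ne (by omega)]
          rw [h1]
        · have h1 : (range j).filter (fun i => GoodP (Function.update h j g j -
              (Function.update s j (M * u) j / Function.update s j (M * u) i : ℕ) * Function.update h j g i)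
              (Function.update s j (M * u) j / Function.update s j (M * u) i : ℕ)) =
              (range j).filter (fun i => GoodP (g - (m i * u : ℕ) * h i) (m i * u : ℕ)) := by
            refine Finset.filter_congr fun i hi => ?_
            rw [Finset.mem_range] at hi
            have h2 : M * u / s i = m i * u := by
              obtain ⟨_, h3, _⟩ := hmi i hi
              have h4 : M * u = m i * u * s i := by rw [h3]; ring
              rw [h4, Nat.mul_div_cancel _ (hspos i hi)]
            rw [Function.update_self, Function.update_self, Function.update_of_ne (by omega),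
              Function.update_of_ne (by omega), h2]
          rw [h1]
      rw [e1]
      push_cast
      have e2 : (β + ε / 2) * ((j + 1) * ((j : ℝ) + 1 - 1) / 2) =
          (β + ε / 2) * (j * (j - 1) / 2) + (β + ε / 2) * j := by ring
      rw [e2]
      exact add_le_add hcnt hcount

/-- an element of `S` divisible by all primes `≤ L` that divide some element -/
theorem exists_mu {S : Set ℕ} (hmul : ∀ a ∈ S, ∀ b ∈ S, a * b ∈ S) (Q L : ℕ) (h1 : ∃ m ∈ S, 1 < m)
    (hpos : ∀ m ∈ S, 0 < m) (hL : ∀ p ≤ L, p.Prime → p ∣ Q ∨ ∃ m ∈ S, p ∣ m) :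
    ∃ m ∈ S, 1 < m ∧ ∀ p ≤ L, p.Prime → ¬ p ∣ Q → p ∣ m := by
  classical
  obtain ⟨m0, hm0, hm1⟩ := h1
  have hch : ∀ p : ℕ, ∃ m ∈ S, p ≤ L → p.Prime → ¬ p ∣ Q → p ∣ m := by
    intro p
    by_cases hp : p ≤ L ∧ p.Prime ∧ ¬ p ∣ Q
    · rcases hL p hp.1 hp.2.1 with h | ⟨m, hm, hpm⟩
      · exact absurd h hp.2.2
      · exact ⟨m, hm, fun _ _ _ => hpm⟩
    · exact ⟨m0, hm0, fun a b c => absurd ⟨a, b, c⟩ hp⟩
  choose f hf hf2 using hch
  refine ⟨m0 * ∏ p ∈ range (L + 1), f p, mul_prod_mem hmul _ _ (fun p _ => hf p) _ hm0, ?_, ?_⟩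
  · refine lt_of_lt_of_le hm1 (Nat.le_mul_of_pos_right _ (Finset.prod_pos fun p _ => hpos _ (hf p)))
  · intro p hp hpp hpQ
    exact (hf2 p hp hpp hpQ).trans ((Finset.dvd_prod_of_mem f (Finset.mem_range.2 (by omega))).mul_left _)

/-- **at least a third of all pairs** -/
theorem one_third (ε : ℝ) (hε : 0 < ε) : ∃ L : ℕ, ∀ (Q : ℕ) (S : Set ℕ) (Φ : ℕ → Finset ℕ), 0 < Q →
    (∀ m ∈ S, 0 < m) → (∀ a ∈ S, ∀ b ∈ S, a * b ∈ S) → (∃ m ∈ S, 1 < m) → (∀ m ∈ S, Nat.Coprime m Q) →
    (∀ p ≤ L, p.Prime → p ∣ Q ∨ ∃ m ∈ S, p ∣ m) →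
    (∀ n, (Φ n).Nonempty ∧ ∀ d ∈ Φ n, d ∈ S) →
    (∀ m ∈ S, Tendsto (fun n => (((Φ n).filter fun d => m * d ∉ Φ n).card : ℝ) / (Φ n).card) atTop (𝓝 0)) →
    ∀ᶠ n in atTop, ∃ H : ℕ, ∀ (y : ℤ) (x : ℕ), H ≤ x → (1 / 3 - ε) * (Φ n).card ≤ ∑ d ∈ Φ n, propG Q d y x := by
  classical
  obtain ⟨k0, hk0⟩ := third (ε / 4) (by linarith)
  set k : ℕ := k0 + 2 with hk
  refine ⟨k, ?_⟩
  intro Q S Φ hQ hpos hmul h1S hQS hL hΦ hF
  replace hL := exists_mu hmul Q k h1S hpos hL
  by_contra hcon
  have hbad : ∃ᶠ n in atTop, ∀ H : ℕ, ∃ (y : ℤ) (x : ℕ), H ≤ x ∧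
      ∑ d ∈ Φ n, propG Q d y x < (1 / 3 - ε) * (Φ n).card := by
    rw [Filter.not_eventually] at hcon
    refine hcon.mono fun n hn => ?_
    push Not at hn
    exact hn
  obtain ⟨s, h, hs0, hsS, hdiv, hcop, hQh, hcnt⟩ :=
    dens_sys (1 / 3 - ε) ε hε k Q hQ S Φ hpos hmul hQS hL hΦ hF hbad k (by omega)
  have hspos : ∀ i < k, 0 < s i := by
    intro i hi
    rcases Nat.eq_zero_or_pos i with h0 | h0
    · rw [h0, hs0]
      norm_num
    · exact hpos _ (hsS i h0 hi)
  -- natural numbers
  set N0 : ℕ := ∑ i ∈ range k, (h i).natAbs with hN0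
  have hN0i : ∀ i < k, (h i).natAbs ≤ N0 := fun i hi =>
    Finset.single_le_sum (f := fun i => (h i).natAbs) (fun _ _ => Nat.zero_le _) (Finset.mem_range.2 hi)
  set h' : ℕ → ℕ := fun i => (h i + s i * N0).toNat with hh'
  have hcast : ∀ i < k, ((h' i : ℕ) : ℤ) = h i + s i * N0 := by
    intro i hi
    rw [hh']
    simp only
    apply Int.toNat_of_nonneg
    have h1 := hN0i i hi
    have h2 := hspos i hi
    have h3 : (N0 : ℤ) ≤ s i * N0 := by
      have : N0 ≤ s i * N0 := Nat.le_mul_of_pos_left N0 h2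
      exact_mod_cast this
    have h4 : ((h i).natAbs : ℤ) ≤ N0 := by exact_mod_cast h1
    have h5 : -((h i).natAbs : ℤ) ≤ h i := by
      rw [Int.natCast_natAbs]
      exact neg_abs_le _
    linarith
  -- the ratios
  have hrat : ∀ i i', i < i' → i' < k → s i' = (s i' / s i) * s i ∧ 1 < s i' / s i ∧
      ∀ p ≤ k, p.Prime → ¬ p ∣ Q → p ∣ s i' / s i := by
    intro i i' h1 h2
    obtain ⟨d, h3, h4⟩ := hdiv i i' h1 h2
    have h5 : s i' / s i = d := by
      rw [h3, Nat.mul_div_cancel _ (hspos i (by omega))]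
    rw [h5]
    exact ⟨h3, h4⟩
  have hdiff : ∀ i i', i < i' → i' < k → (h' i' : ℤ) - (s i' / s i : ℕ) * (h' i : ℤ) =
      h i' - (s i' / s i : ℕ) * h i := by
    intro i i' h1 h2
    rw [hcast i (by omega), hcast i' h2]
    have h3 : ((s i' : ℕ) : ℤ) = ((s i' / s i : ℕ) : ℤ) * (s i : ℤ) := by exact_mod_cast (hrat i i' h1 h2).1
    rw [h3]
    ring
  -- the good pairs
  set R : ℕ → ℕ → Prop := fun i i' => i < i' ∧ GoodP (h i' - (s i' / s i : ℕ) * h i) (s i' / s i : ℕ) with hR
  set G : Finset (Fin k × Fin k) := univ.filter fun x => R x.1 x.2 ∨ R x.2 x.1 with hG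
  have hGcard : (G.card : ℝ) ≤ 2 * cntG k s h := by
    have g1 : (((univ : Finset (Fin k × Fin k)).filter fun x => R x.1 x.2).card : ℝ) = cntG k s h := by
      rw [Finset.card_filter]
      push_cast
      rw [Fintype.sum_prod_type, Finset.sum_comm]
      rw [Fin.sum_univ_eq_sum_range (fun i' => ∑ i : Fin k, if R i i' then (1 : ℝ) else 0)]
      unfold cntG
      refine Finset.sum_congr rfl fun i' hi' => ?_
      rw [Fin.sum_univ_eq_sum_range (fun i => if R i i' then (1 : ℝ) else 0)]
      rw [Finset.card_filter]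
      push_cast
      rw [← Finset.sum_filter, ← Finset.sum_filter]
      refine Finset.sum_congr ?_ fun _ _ => rfl
      ext i
      rw [Finset.mem_filter, Finset.mem_filter, Finset.mem_range, Finset.mem_range]
      rw [Finset.mem_range] at hi'
      constructor
      · rintro ⟨_, h2, h3⟩
        exact ⟨h2, h3⟩
      · rintro ⟨h2, h3⟩
        exact ⟨by omega, h2, h3⟩
    have g2 : ((univ : Finset (Fin k × Fin k)).filter fun x => R x.2 x.1).card =
        ((univ : Finset (Fin k × Fin k)).filter fun x => R x.1 x.2).card := by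
      refine Finset.card_bij (fun x _ => (x.2, x.1)) ?_ ?_ ?_
      · intro x hx
        exact Finset.mem_filter.2 ⟨Finset.mem_univ _, (Finset.mem_filter.1 hx).2⟩
      · rintro ⟨a, b⟩ _ ⟨c, d⟩ _ hab
        simp only [Prod.mk.injEq] at hab
        rw [hab.1, hab.2]
      · rintro ⟨a, b⟩ hab
        exact ⟨(b, a), Finset.mem_filter.2 ⟨Finset.mem_univ _, (Finset.mem_filter.1 hab).2⟩, rfl⟩
    have g3 : G.card ≤ ((univ : Finset (Fin k × Fin k)).filter fun x => R x.1 x.2).card +
        ((univ : Finset (Fin k × Fin k)).filter fun x => R x.2 x.1).card := by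
      rw [hG, Finset.filter_or]
      exact Finset.card_union_le _ _
    rw [g2] at g3
    have g4 : (G.card : ℝ) ≤ (((univ : Finset (Fin k × Fin k)).filter fun x => R x.1 x.2).card : ℝ) +
        (((univ : Finset (Fin k × Fin k)).filter fun x => R x.1 x.2).card : ℝ) := by exact_mod_cast g3
    rw [g1] at g4
    linarith
  have hGb : (G.card : ℝ) ≤ (1 / 3 - ε / 4) * (k : ℝ) ^ 2 := by
    have hk2 : (2 : ℝ) ≤ k := by exact_mod_cast (by omega : 2 ≤ k)
    have h1 : 2 * ((1 / 3 - ε + ε / 2) * (k * ((k : ℝ) - 1) / 2)) = (1 / 3 - ε / 2) * (k * ((k : ℝ) - 1)) := by ring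
    have h2 : (G.card : ℝ) ≤ (1 / 3 - ε / 2) * (k * ((k : ℝ) - 1)) := by
      rw [← h1]
      linarith
    refine h2.trans ?_
    have h3 : 0 ≤ (k : ℝ) * (ε / 4 * (k - 2) + 1 / 3) := by
      have : 0 ≤ ε / 4 * ((k : ℝ) - 2) := mul_nonneg (by linarith) (by linarith)
      positivity
    have h4 : (1 / 3 - ε / 4) * (k : ℝ) ^ 2 - (1 / 3 - ε / 2) * (k * ((k : ℝ) - 1)) =
        (k : ℝ) * (ε / 4 * (k - 2) + 1 / 3) := by ring
    linarith
  -- bad pairs
  have hX : ∀ i j : Fin k, ∃ X : ℕ, ∀ n ≥ X, i ≠ j → (i, j) ∉ G →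
      ¬ ((s i * n + h' i).Prime ∧ (s j * n + h' j).Prime) := by
    intro i j
    by_contra hc
    push Not at hc
    have hne : i ≠ j := by
      obtain ⟨n, _, h1, _⟩ := hc 0
      exact h1
    have hnG : (i, j) ∉ G := by
      obtain ⟨n, _, _, h2, _⟩ := hc 0
      exact h2
    apply hnG
    rw [hG, Finset.mem_filter]
    refine ⟨Finset.mem_univ _, ?_⟩
    rcases lt_or_gt_of_ne hne with hlt | hlt
    · left
      have hlt' : (i : ℕ) < j := hlt
      refine ⟨hlt', ?_⟩
      obtain ⟨r1, r2, _⟩ := hrat i j hlt' j.2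
      have h3 := pair_good (s i) (h' i) (s j) (h' j) (s j / s i) r1 (hspos i i.2) (by omega)
        (fun x => by
          obtain ⟨n, hn, _, _, h4, h5⟩ := hc x
          exact ⟨n, hn, h4, h5⟩)
      rw [hdiff i j hlt' j.2] at h3
      exact h3
    · right
      have hlt' : (j : ℕ) < i := hlt
      refine ⟨hlt', ?_⟩
      obtain ⟨r1, r2, _⟩ := hrat j i hlt' i.2
      have h3 := pair_good (s j) (h' j) (s i) (h' i) (s i / s j) r1 (hspos j j.2) (by omega)
        (fun x => by
          obtain ⟨n, hn, _, _, h4, h5⟩ := hc x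
          exact ⟨n, hn, h5, h4⟩)
      rw [hdiff j i hlt' i.2] at h3
      exact h3
  choose X hX using hX
  -- coprimality mod primes
  have hnd : ∀ i < k, ∀ p : ℕ, p.Prime → p ∣ s i → ¬ p ∣ h' i := by
    intro i hi p hp h1 h2
    have h3 : (p : ℤ) ∣ h i := by
      have h4 : (p : ℤ) ∣ (h' i : ℤ) := by exact_mod_cast h2
      rw [hcast i hi] at h4
      have h5 : (p : ℤ) ∣ s i * N0 := Dvd.dvd.mul_right (by exact_mod_cast h1) _
      exact (Int.dvd_add_left h5).1 h4
    have h4 : (p : ℤ) ∣ (Int.gcd (h i) (s i) : ℤ) := Int.dvd_coe_gcd h3 (by exact_mod_cast h1)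
    rw [hcop i hi] at h4
    have h5 : p ∣ 1 := by exact_mod_cast h4
    exact hp.one_lt.ne' (Nat.dvd_one.1 h5)
  have hfin := hk0 k (by omega) (fun i => s i) (fun i => h' i) (fun i => hspos i i.2)
    ?_ ?_ G hGb (∑ i, ∑ j, X i j)
  · obtain ⟨n, hn, i, j, hij, hijG, hi, hj⟩ := hfin
    refine hX i j n (le_trans ?_ hn) hij hijG ⟨hi, hj⟩
    calc X i j ≤ ∑ j, X i j := Finset.single_le_sum (f := fun j => X i j) (fun _ _ => Nat.zero_le _) (Finset.mem_univ j)
      _ ≤ _ := Finset.single_le_sum (f := fun i => ∑ j, X i j) (fun _ _ => Nat.zero_le _) (Finset.mem_univ i)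
  · -- not proportional
    have key : ∀ i j : ℕ, i < j → j < k → s i * h' j ≠ s j * h' i := by
      intro i j hlt hjk heq
      obtain ⟨r1, r2, r3⟩ := hrat i j hlt hjk
      have h1 : h' j = (s j / s i) * h' i := by
        have h2 : s i * h' j = s i * ((s j / s i) * h' i) := by
          rw [heq]
          conv_lhs => rw [r1]
          ring
        exact Nat.eq_of_mul_eq_mul_left (hspos i (by omega)) h2
      obtain ⟨p, hp, h2⟩ := Nat.exists_prime_and_dvd (show s j / s i ≠ 1 by omega)
      refine hnd j hjk p hp ?_ ?_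
      · rw [r1]
        exact h2.mul_right _
      · rw [h1]
        exact h2.mul_right _
    intro i j hij
    rcases lt_or_gt_of_ne hij with hlt | hlt
    · exact key i j hlt j.2
    · exact fun heq => key j i hlt i.2 heq.symm
  · -- admissible
    intro p hp
    by_cases hpQ : p ∣ Q
    · refine ⟨1 + p * N0 - N0, fun i hd => ?_⟩
      have hps : ¬ p ∣ s i := by
        intro h1
        rcases Nat.eq_zero_or_pos (i : ℕ) with h0 | h0
        · rw [h0, hs0] at h1
          exact hp.one_lt.ne' (Nat.dvd_one.1 h1)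
        · have h2 := hQS _ (hsS i h0 i.2)
          have h3 : p ∣ Nat.gcd (s i) Q := Nat.dvd_gcd h1 hpQ
          rw [h2] at h3
          exact hp.one_lt.ne' (Nat.dvd_one.1 h3)
      have h4 : ((s i * (1 + p * N0 - N0) + h' i : ℕ) : ℤ) = s i + (p * (s i * N0) + h i) := by
        have h5 : N0 ≤ 1 + p * N0 := by
          have := Nat.le_mul_of_pos_left N0 hp.pos
          omega
        push_cast [Nat.cast_sub h5]
        rw [hcast i i.2]
        ring
      have h5 : (p : ℤ) ∣ s i + (p * (s i * N0) + h i) := by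
        rw [← h4]
        exact_mod_cast hd
      have h6 : (p : ℤ) ∣ p * (s i * N0) + h i :=
        dvd_add (dvd_mul_right _ _) ((Int.natCast_dvd_natCast.2 hpQ).trans (hQh i i.2))
      have h7 : (p : ℤ) ∣ s i := (Int.dvd_add_left h6).1 h5
      exact hps (by exact_mod_cast h7)
    by_cases hpk : p ≤ k
    · refine ⟨1 + (p - 1) * h' 0, fun i => ?_⟩
      by_cases h0 : (i : ℕ) = 0
      · have e1 : s (i : ℕ) * (1 + (p - 1) * h' 0) + h' (i : ℕ) = 1 + p * h' 0 := by
          rw [h0, hs0]
          have := hp.one_lt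
          have h2 : (p - 1) * h' 0 + h' 0 = p * h' 0 := by
            calc (p - 1) * h' 0 + h' 0 = (p - 1 + 1) * h' 0 := by ring
              _ = p * h' 0 := by rw [Nat.sub_add_cancel this.le]
          omega
        show ¬ p ∣ s (i : ℕ) * (1 + (p - 1) * h' 0) + h' (i : ℕ)
        rw [e1]
        intro hd
        have h2 : p ∣ 1 := (Nat.dvd_add_left (dvd_mul_right p _)).1 hd
        exact hp.one_lt.ne' (Nat.dvd_one.1 h2)
      · have h1 : p ∣ s (i : ℕ) := by
          obtain ⟨r1, _, r3⟩ := hrat 0 i (by omega) i.2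
          rw [r1]
          exact (r3 p hpk hp hpQ).mul_right _
        intro hd
        exact hnd i i.2 p hp h1 ((Nat.dvd_add_right (h1.mul_right _)).1 hd)
    · push Not at hpk
      have hone : ∀ i : Fin k, ((range p).filter fun n => p ∣ s i * n + h' i).card ≤ 1 := by
        intro i
        rw [card_le_one]
        intro a ha b hb
        rw [mem_filter, mem_range] at ha hb
        by_cases hps : p ∣ s i
        · exact absurd ((Nat.dvd_add_right (hps.mul_right _)).1 ha.2) (hnd i i.2 p hp hps)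
        · have h1 : s i * a + h' i ≡ s i * b + h' i [MOD p] :=
            ((Nat.modEq_zero_iff_dvd.mpr ha.2).trans (Nat.modEq_zero_iff_dvd.mpr hb.2).symm)
          have h2 : s i * a ≡ s i * b [MOD p] := Nat.ModEq.add_right_cancel' _ h1
          have hc : Nat.gcd p (s i) = 1 := (Nat.Prime.coprime_iff_not_dvd hp).mpr hps
          have h3 : a ≡ b [MOD p] := Nat.ModEq.cancel_left_of_coprime hc h2
          exact Nat.ModEq.eq_of_lt_of_lt h3 ha.1 hb.1
      have hU : ((univ : Finset (Fin k)).biUnion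
          fun i => (range p).filter fun n => p ∣ s i * n + h' i).card < (range p).card := by
        refine lt_of_le_of_lt card_biUnion_le ?_
        refine lt_of_le_of_lt (sum_le_card_nsmul _ _ 1 fun i _ => hone i) ?_
        rw [card_range, card_univ, Fintype.card_fin, smul_eq_mul, mul_one]
        exact hpk
      obtain ⟨n, hn, hn2⟩ := exists_mem_notMem_of_card_lt_card hU
      refine ⟨n, fun i hd => hn2 ?_⟩
      rw [mem_biUnion]
      exact ⟨i, mem_univ i, mem_filter.2 ⟨hn, hd⟩⟩

end Pool.Agent.SL
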