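import Pool.Agent.SL.OutP

/-! SLOPES, density (helper64): the greedy step of the density theorem.  Given finitely many forms `s_i n + h_i`, one more
form `t n + g`, `t = M u`, `u ∈ Φ_n`, `g` a multiple of `Q` in a long interval, such that at most the proportion `β + ε/2` of the
new pairs is good, provided that the average over `d ∈ Φ_n` of the proportion of good `a` among the multiples of `Q` coprime to
`d` is `< β` in arbitrarily long intervals. -/

set_option autoImplicit false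

namespace Pool.Agent.SL

open Finset Filter Topology

open Classical in
/-- the numbers in `(y, y + x]` with a property -/
noncomputable def cntI (P : ℤ → Prop) (y : ℤ) (x : ℕ) : ℕ := ((Ioc y (y + x)).filter P).card

theorem cntI_eq (P : ℤ → Prop) [DecidablePred P] (y : ℤ) (x : ℕ) :
    cntI P y x = ((Ioc y (y + x)).filter P).card := by
  unfold cntI
  congr

theorem cntI_mono {P Q : ℤ → Prop} (h : ∀ a, P a → Q a) (y : ℤ) (x : ℕ) : cntI P y x ≤ cntI Q y x := by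
  classical
  unfold cntI
  refine Finset.card_le_card fun a ha => ?_
  rw [Finset.mem_filter] at ha ⊢
  exact ⟨ha.1, h a ha.2⟩

/-- shifting an interval -/
theorem cntI_shift (P : ℤ → Prop) (y : ℤ) (x : ℕ) (c : ℤ) :
    cntI (fun a => P (a - c)) y x ≤ cntI P y x + c.natAbs := by
  classical
  unfold cntI
  have h1 : (((Ioc y (y + x)).filter fun a => P (a - c)).image fun a => a - c) ⊆
      (Ioc y (y + x)).filter P ∪ (Ioc (y - c) y ∪ Ioc (y + x) (y + x - c)) := by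
    intro b hb
    obtain ⟨a, ha, rfl⟩ := Finset.mem_image.1 hb
    rw [Finset.mem_filter, Finset.mem_Ioc] at ha
    rw [Finset.mem_union, Finset.mem_union, Finset.mem_filter, Finset.mem_Ioc, Finset.mem_Ioc, Finset.mem_Ioc]
    by_cases h2 : a - c ≤ y
    · exact Or.inr (Or.inl ⟨by omega, h2⟩)
    · by_cases h3 : a - c ≤ y + x
      · exact Or.inl ⟨⟨by omega, h3⟩, ha.2⟩
      · exact Or.inr (Or.inr ⟨by omega, by omega⟩)
  have h2 := Finset.card_le_card h1
  rw [Finset.card_image_of_injective _ (sub_left_injective)] at h2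
  refine h2.trans ((Finset.card_union_le _ _).trans ?_)
  refine Nat.add_le_add_left ((Finset.card_union_le _ _).trans ?_) _
  rw [Int.card_Ioc, Int.card_Ioc]
  omega

/-- every interval has many multiples of `Q` coprime to `d` -/
theorem cntI_cop (Q d : ℕ) (hQ : 0 < Q) (hd : 0 < d) (hQd : Nat.Coprime d Q) (y : ℤ) (x T : ℕ)
    (hT : T * (Q * d) ≤ x) : T ≤ cntI (fun a => (Q : ℤ) ∣ a ∧ Int.gcd a d = 1) y x := by
  classical
  set D : ℕ := Q * d with hD
  have hDpos : 0 < D := Nat.mul_pos hQ hd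
  have hD0 : (0 : ℤ) < D := by exact_mod_cast hDpos
  -- a number divisible by `Q` and congruent to `1 mod d`
  obtain ⟨c, hc1, hc2⟩ : ∃ c : ℤ, (Q : ℤ) ∣ c ∧ IsCoprime c (d : ℤ) := by
    refine ⟨Q, dvd_refl _, ?_⟩
    rw [Nat.isCoprime_iff_coprime]
    exact hQd.symm
  -- the numbers congruent to `c mod D`
  have hinj : Function.Injective (fun i : ℕ => y + 1 + (c - (y + 1)) % D + (i : ℤ) * D) := by
    intro i i' h3
    simp only at h3
    have h4 : (i : ℤ) * D = (i' : ℤ) * D := by linarith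
    exact_mod_cast mul_right_cancel₀ hD0.ne' h4
  have h0 : T = ((range T).image (fun i : ℕ => y + 1 + (c - (y + 1)) % D + (i : ℤ) * D)).card := by
    rw [Finset.card_image_of_injective _ hinj, Finset.card_range]
  rw [h0, cntI_eq]
  refine Finset.card_le_card fun a ha => ?_
  obtain ⟨i, hi, rfl⟩ := Finset.mem_image.1 ha
  rw [Finset.mem_range] at hi
  have e1 := Int.emod_add_mul_ediv (c - (y + 1)) D
  have e2 := Int.emod_nonneg (c - (y + 1)) hD0.ne'
  have e3 := Int.emod_lt_of_pos (c - (y + 1)) hD0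
  have hT' : (T : ℤ) * D ≤ x := by exact_mod_cast hT
  have hi' : ((i : ℤ) + 1) * D ≤ T * D := by
    have : (i : ℤ) + 1 ≤ T := by exact_mod_cast hi
    exact mul_le_mul_of_nonneg_right this hD0.le
  have hi0 : (0 : ℤ) ≤ (i : ℤ) * D := mul_nonneg (Int.natCast_nonneg _) hD0.le
  have hi1 : ((i : ℤ) + 1) * D = i * D + D := by ring
  have hm : y + 1 + (c - (y + 1)) % D + (i : ℤ) * D = c + ((i : ℤ) - (c - (y + 1)) / D) * (Q * d) := by
    have hDc : ((D : ℕ) : ℤ) = (Q : ℤ) * d := by rw [hD]; push_cast; ring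
    rw [← hDc]
    linarith
  rw [Finset.mem_filter, Finset.mem_Ioc]
  refine ⟨⟨by linarith, by linarith⟩, ?_, ?_⟩
  · rw [hm]
    exact dvd_add hc1 (Dvd.dvd.mul_left (dvd_mul_right _ _) _)
  · rw [hm, ← Int.isCoprime_iff_gcd_eq_one]
    have h5 : c + ((i : ℤ) - (c - (y + 1)) / D) * (Q * d) = c + (d : ℤ) * (((i : ℤ) - (c - (y + 1)) / D) * Q) := by ring
    rw [h5]
    exact IsCoprime.add_mul_left_left hc2 _

/-- the proportion of good `a` among the multiples of `Q` coprime to `d` in `(y, y + x]` -/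
noncomputable def propG (Q d : ℕ) (y : ℤ) (x : ℕ) : ℝ :=
  (cntI (fun a => (Q : ℤ) ∣ a ∧ GoodP a d) y x : ℝ) / (cntI (fun a => (Q : ℤ) ∣ a ∧ Int.gcd a d = 1) y x : ℝ)

theorem propG_nonneg (Q d : ℕ) (y : ℤ) (x : ℕ) : 0 ≤ propG Q d y x := by unfold propG; positivity

theorem propG_le (Q d : ℕ) (y : ℤ) (x : ℕ) : propG Q d y x ≤ 1 := by
  unfold propG
  refine div_le_one_of_le₀ ?_ (Nat.cast_nonneg _)
  have h1 : cntI (fun a => (Q : ℤ) ∣ a ∧ GoodP a d) y x ≤ cntI (fun a => (Q : ℤ) ∣ a ∧ Int.gcd a d = 1) y x :=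
    cntI_mono (fun a (ha : (Q : ℤ) ∣ a ∧ GoodP a d) => ⟨ha.1, ha.2.1⟩) y x
  exact_mod_cast h1

theorem mul_prod_mem {S : Set ℕ} (hS : ∀ a ∈ S, ∀ b ∈ S, a * b ∈ S) {ι : Type} (A : Finset ι) (f : ι → ℕ)
    (hf : ∀ i ∈ A, f i ∈ S) (μ : ℕ) (hμ : μ ∈ S) : μ * ∏ i ∈ A, f i ∈ S := by
  classical
  induction A using Finset.induction_on generalizing μ with
  | empty => simpa using hμ
  | insert a A ha ih =>
    rw [Finset.prod_insert ha, ← mul_assoc]
    exact ih (fun i hi => hf i (Finset.mem_insert_of_mem hi)) _ (hS _ hμ _ (hf a (Finset.mem_insert_self _ _)))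

open Classical in
/-- the greedy step -/
theorem dens_step (β ε : ℝ) (hε : 0 < ε) (Q : ℕ) (hQ : 0 < Q) (S : Set ℕ) (Φ : ℕ → Finset ℕ) (hpos : ∀ m ∈ S, 0 < m)
    (hQS : ∀ m ∈ S, Nat.Coprime m Q)
    (hΦ : ∀ n, (Φ n).Nonempty ∧ ∀ d ∈ Φ n, d ∈ S)
    (hF : ∀ m ∈ S, Tendsto (fun n => (((Φ n).filter fun d => m * d ∉ Φ n).card : ℝ) / (Φ n).card) atTop (𝓝 0))
    (hbad : ∃ᶠ n in atTop, ∀ H : ℕ, ∃ (y : ℤ) (x : ℕ), H ≤ x ∧ ∑ d ∈ Φ n, propG Q d y x < β * (Φ n).card)
    (j : ℕ) (s : ℕ → ℕ) (h : ℕ → ℤ) (M : ℕ) (hM : 0 < M) (m : ℕ → ℕ) (hm : ∀ i < j, m i ∈ S ∧ M = m i * s i ∧ s i ∣ m i)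
    (hMS : M ∈ S) (hh : ∀ i < j, (Q : ℤ) ∣ h i) :
    ∃ u : ℕ, u ∈ S ∧ ∃ g : ℤ, (Q : ℤ) ∣ g ∧ Int.gcd g (M * u : ℕ) = 1 ∧
      (((range j).filter fun i => GoodP (g - (m i * u : ℕ) * h i) (m i * u : ℕ)).card : ℝ) ≤ (β + ε / 2) * j := by
  classical
  -- the index `n`
  have hev : ∀ᶠ n in atTop, ∀ i ∈ range j,
      (((Φ n).filter fun d => m i * d ∉ Φ n).card : ℝ) ≤ ε / 8 * (Φ n).card := by
    rw [Filter.eventually_all_finset]
    intro i hi
    have h1 := hF (m i) (hm i (Finset.mem_range.1 hi)).1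
    filter_upwards [h1.eventually_lt_const (show (0 : ℝ) < ε / 8 by linarith)] with n hn
    have h2 : (0 : ℝ) < (Φ n).card := by exact_mod_cast Finset.card_pos.2 (hΦ n).1
    rw [div_lt_iff₀ h2] at hn
    exact hn.le
  obtain ⟨n, hn, hnF⟩ := (hbad.and_eventually hev).exists
  have hcpos : (0 : ℝ) < (Φ n).card := by exact_mod_cast Finset.card_pos.2 (hΦ n).1
  have hup : ∀ u ∈ Φ n, 0 < u := fun u hu => hpos u ((hΦ n).2 u hu)
  -- the length
  set K : ℕ := M * ∑ u ∈ Φ n, u with hK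
  set A : ℕ := ∑ i ∈ range j, (h i).natAbs with hA
  obtain ⟨T, hT⟩ := exists_nat_gt (8 * (K * A : ℝ) / ε + 1)
  have hT0 : (0 : ℝ) < T := lt_of_le_of_lt (by positivity) hT
  obtain ⟨y, x, hx, hsum⟩ := hn (T * (Q * K))
  have hdK : ∀ i < j, ∀ u ∈ Φ n, 0 < m i * u ∧ m i * u ≤ K := by
    intro i hi u hu
    obtain ⟨h1, h2, _⟩ := hm i hi
    refine ⟨Nat.mul_pos (hpos _ h1) (hup u hu), ?_⟩
    rw [hK]
    refine Nat.mul_le_mul ?_ ?_
    · rw [h2]
      refine Nat.le_mul_of_pos_right _ ?_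
      rcases Nat.eq_zero_or_pos (s i) with h3 | h3
      · rw [h3, Nat.mul_zero] at h2
        omega
      · exact h3
    · exact Finset.single_le_sum (f := fun u => u) (fun _ _ => Nat.zero_le _) hu
  -- the counts
  set C : ℕ → ℕ := fun u => cntI (fun a => (Q : ℤ) ∣ a ∧ Int.gcd a (M * u : ℕ) = 1) y x with hC
  have hCeq : ∀ i < j, ∀ u ∈ Φ n, cntI (fun a => (Q : ℤ) ∣ a ∧ Int.gcd a (m i * u : ℕ) = 1) y x = C u := by
    intro i hi u hu
    obtain ⟨_, h2, h3⟩ := hm i hi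
    rw [hC]
    refine le_antisymm (cntI_mono (fun a ha => ⟨ha.1, ?_⟩) y x) (cntI_mono (fun a ha => ⟨ha.1, ?_⟩) y x)
    · replace ha := ha.2
      rw [← Int.isCoprime_iff_gcd_eq_one] at ha ⊢
      have h4 : ((M * u : ℕ) : ℤ) = (m i * u : ℕ) * (s i : ℕ) := by
        rw [h2]; push_cast; ring
      rw [h4]
      refine IsCoprime.mul_right ha ?_
      refine ha.of_isCoprime_of_dvd_right ?_
      have : s i ∣ m i * u := h3.mul_right u
      exact_mod_cast this
    · replace ha := ha.2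
      rw [← Int.isCoprime_iff_gcd_eq_one] at ha ⊢
      refine ha.of_isCoprime_of_dvd_right ?_
      have : m i * u ∣ M * u := Nat.mul_dvd_mul_right (h2 ▸ dvd_mul_right _ _) u
      exact_mod_cast this
  by_contra hcon
  push Not at hcon
  -- every choice is bad
  have hall : ∀ u ∈ Φ n, ((β + ε / 2) * j) * C u ≤
      ∑ i ∈ range j, (cntI (fun a => (Q : ℤ) ∣ a ∧ GoodP (a - (m i * u : ℕ) * h i) (m i * u : ℕ)) y x : ℝ) := by
    intro u hu
    have h1 : ∑ i ∈ range j, (cntI (fun a => (Q : ℤ) ∣ a ∧ GoodP (a - (m i * u : ℕ) * h i) (m i * u : ℕ)) y x : ℝ) =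
        ∑ a ∈ Ioc y (y + x), ∑ i ∈ range j,
          if (Q : ℤ) ∣ a ∧ GoodP (a - (m i * u : ℕ) * h i) (m i * u : ℕ) then (1 : ℝ) else 0 := by
      rw [Finset.sum_comm]
      refine Finset.sum_congr rfl fun i _ => ?_
      rw [cntI_eq, Finset.card_filter]
      push_cast
      rfl
    have h2 : ((β + ε / 2) * j) * C u = ∑ a ∈ (Ioc y (y + x)).filter (fun a => (Q : ℤ) ∣ a ∧ Int.gcd a (M * u : ℕ) = 1),
        (β + ε / 2) * j := by
      rw [Finset.sum_const, nsmul_eq_mul, hC]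
      simp only [cntI_eq]
      rw [mul_comm]
    rw [h1, h2]
    refine le_trans (Finset.sum_le_sum fun a ha => ?_) (Finset.sum_le_sum_of_subset_of_nonneg
      (Finset.filter_subset _ _) fun a _ _ => Finset.sum_nonneg fun i _ => by split_ifs <;> norm_num)
    have ha' := (Finset.mem_filter.1 ha).2
    have h3 := (hcon u ((hΦ n).2 u hu) a ha'.1 ha'.2).le
    rw [Finset.card_filter] at h3
    push_cast at h3
    refine h3.trans (le_of_eq ?_)
    refine Finset.sum_congr rfl fun i _ => if_congr ?_ rfl rfl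
    push_cast
    exact ⟨fun h => ⟨ha'.1, h⟩, fun h => h.2⟩
  have hCpos : ∀ i < j, ∀ u ∈ Φ n, (T : ℝ) ≤ C u := by
    intro i hi u hu
    rw [← hCeq i hi u hu]
    have h1 := hdK i hi u hu
    have h2 : Nat.Coprime (m i * u) Q := Nat.Coprime.mul_left (hQS _ (hm i hi).1) (hQS _ ((hΦ n).2 u hu))
    exact_mod_cast cntI_cop Q _ hQ h1.1 h2 y x T
      (le_trans (Nat.mul_le_mul_left T (Nat.mul_le_mul_left Q h1.2)) hx)
  rcases Nat.eq_zero_or_pos j with hj | hj
  · subst hj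
    obtain ⟨u, hu⟩ := (hΦ n).1
    have h1 := hcon u ((hΦ n).2 u hu) Q (dvd_refl _) (by
      rw [← Int.isCoprime_iff_gcd_eq_one, Nat.isCoprime_iff_coprime]
      exact (Nat.Coprime.mul_left (hQS _ hMS) (hQS _ ((hΦ n).2 u hu))).symm)
    simp at h1
  -- one pair of indices
  have hone : ∀ i < j, ∀ u ∈ Φ n,
      (cntI (fun a => (Q : ℤ) ∣ a ∧ GoodP (a - (m i * u : ℕ) * h i) (m i * u : ℕ)) y x : ℝ) / C u ≤
        propG Q (m i * u) y x + ε / 8 := by
    intro i hi u hu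
    have hCu := hCpos i hi u hu
    have hCu0 : (0 : ℝ) < C u := lt_of_lt_of_le hT0 hCu
    have h1 := cntI_shift (fun a => (Q : ℤ) ∣ a ∧ GoodP a (m i * u : ℕ)) y x ((m i * u : ℕ) * h i)
    have h0 : cntI (fun a => (Q : ℤ) ∣ a ∧ GoodP (a - (m i * u : ℕ) * h i) (m i * u : ℕ)) y x ≤
        cntI (fun a => (Q : ℤ) ∣ (a - (m i * u : ℕ) * h i) ∧ GoodP (a - (m i * u : ℕ) * h i) (m i * u : ℕ)) y x :=
      cntI_mono (fun a ha => ⟨dvd_sub ha.1 (Dvd.dvd.mul_left (hh i hi) _), ha.2⟩) y x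
    replace h1 := h0.trans h1
    have h2 : ((((m i * u : ℕ) : ℤ) * h i).natAbs : ℝ) ≤ ε / 8 * C u := by
      have h3 : (((m i * u : ℕ) : ℤ) * h i).natAbs ≤ K * A := by
        rw [Int.natAbs_mul, Int.natAbs_natCast]
        refine Nat.mul_le_mul (hdK i hi u hu).2 ?_
        exact Finset.single_le_sum (f := fun i => (h i).natAbs) (fun _ _ => Nat.zero_le _) (Finset.mem_range.2 hi)
      have h4 : ((((m i * u : ℕ) : ℤ) * h i).natAbs : ℝ) ≤ (K * A : ℝ) := by exact_mod_cast h3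
      refine h4.trans ?_
      have h5 : 8 * (K * A : ℝ) / ε ≤ C u := by linarith
      rw [div_le_iff₀ hε] at h5
      linarith
    have h3 : (cntI (fun a => (Q : ℤ) ∣ a ∧ GoodP (a - (m i * u : ℕ) * h i) (m i * u : ℕ)) y x : ℝ) ≤
        cntI (fun a => (Q : ℤ) ∣ a ∧ GoodP a (m i * u : ℕ)) y x + ε / 8 * C u := by
      have h4 : (cntI (fun a => (Q : ℤ) ∣ a ∧ GoodP (a - (m i * u : ℕ) * h i) (m i * u : ℕ)) y x : ℝ) ≤
          (cntI (fun a => (Q : ℤ) ∣ a ∧ GoodP a (m i * u : ℕ)) y x : ℝ) +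
            ((((m i * u : ℕ) : ℤ) * h i).natAbs : ℝ) := by
        exact_mod_cast h1
      linarith
    rw [div_le_iff₀ hCu0]
    unfold propG
    rw [hCeq i hi u hu, add_mul, div_mul_cancel₀ _ hCu0.ne']
    exact h3
  -- sums
  have e1 : ∑ u ∈ Φ n, (β + ε / 2) * j ≤ ∑ u ∈ Φ n, ∑ i ∈ range j, (propG Q (m i * u) y x + ε / 8) := by
    refine Finset.sum_le_sum fun u hu => ?_
    have h1 := hall u hu
    have hCu0 : (0 : ℝ) < C u := lt_of_lt_of_le hT0 (hCpos 0 hj u hu)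
    have h2 : (β + ε / 2) * j ≤
        (∑ i ∈ range j, (cntI (fun a => (Q : ℤ) ∣ a ∧ GoodP (a - (m i * u : ℕ) * h i) (m i * u : ℕ)) y x : ℝ)) / C u := by
      rw [le_div_iff₀ hCu0]
      exact h1
    refine h2.trans ?_
    rw [Finset.sum_div]
    exact Finset.sum_le_sum fun i hi => hone i (Finset.mem_range.1 hi) u hu
  have e2 : ∀ i ∈ range j, ∑ u ∈ Φ n, propG Q (m i * u) y x ≤ (β + ε / 8) * (Φ n).card := by
    intro i hi
    have hmi := hpos _ (hm i (Finset.mem_range.1 hi)).1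
    rw [← Finset.sum_filter_add_sum_filter_not (Φ n) (fun u => m i * u ∈ Φ n)]
    have h1 : ∑ u ∈ (Φ n).filter (fun u => m i * u ∈ Φ n), propG Q (m i * u) y x ≤ ∑ d ∈ Φ n, propG Q d y x := by
      have hinj : Set.InjOn (fun u => m i * u) ((Φ n).filter (fun u => m i * u ∈ Φ n)) := fun a _ b _ hab =>
        Nat.eq_of_mul_eq_mul_left hmi hab
      rw [← Finset.sum_image (f := fun d => propG Q d y x) hinj]
      refine Finset.sum_le_sum_of_subset_of_nonneg ?_ fun d _ _ => propG_nonneg Q d y x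
      intro d hd
      obtain ⟨u, hu, rfl⟩ := Finset.mem_image.1 hd
      exact (Finset.mem_filter.1 hu).2
    have h2 : ∑ u ∈ (Φ n).filter (fun u => ¬ m i * u ∈ Φ n), propG Q (m i * u) y x ≤ ε / 8 * (Φ n).card := by
      refine le_trans ?_ (hnF i hi)
      calc _ ≤ ∑ _u ∈ (Φ n).filter (fun u => ¬ m i * u ∈ Φ n), (1 : ℝ) :=
            Finset.sum_le_sum fun u _ => propG_le Q _ y x
        _ = _ := by rw [Finset.sum_const, nsmul_eq_mul, mul_one]
    linarith
  have e3 : ∑ u ∈ Φ n, ∑ i ∈ range j, (propG Q (m i * u) y x + ε / 8) ≤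
      (β + ε / 8 + ε / 8) * (Φ n).card * j := by
    rw [Finset.sum_comm]
    calc ∑ i ∈ range j, ∑ u ∈ Φ n, (propG Q (m i * u) y x + ε / 8)
        ≤ ∑ _i ∈ range j, (β + ε / 8 + ε / 8) * (Φ n).card := by
          refine Finset.sum_le_sum fun i hi => ?_
          rw [Finset.sum_add_distrib, Finset.sum_const, nsmul_eq_mul]
          have := e2 i hi
          linarith
      _ = _ := by rw [Finset.sum_const, Finset.card_range, nsmul_eq_mul]; ring
  rw [Finset.sum_const, nsmul_eq_mul] at e1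
  have hjR : (0 : ℝ) < j := by exact_mod_cast hj
  have e4 := e1.trans e3
  have e5 : 0 < ε / 4 * ((Φ n).card * j : ℝ) := by positivity
  nlinarith

end Pool.Agent.SL
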